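import Pool.Agent.Q161.AbClosEnt

/-!
# MP_1706f7_co: an abelian closure of zero entropy

Let `β = √2/2` and `s_i = ⌊(i+1)β⌋ - ⌊iβ⌋` (a Sturmian word), and let `x` be the word
`0 s_0 0 s_1 0 s_2 …`. It is uniformly recurrent, aperiodic and not Sturmian. For even `n` the
factors of length `n` of `x` have only two possible numbers of ones, so every word of the abelian
closure is, for even `n` with `nβ/2` slightly above an integer, `n`-periodic up to few changes;
therefore the entropy of the abelian closure is `0`.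
-/

namespace Pool.Agent.Results.MP_1706f7_co.ZeroEntropy

open Finset Filter Topology Pool.Agent.Q161.AbClos

/-- The slope. -/
noncomputable def β : ℝ := √2 / 2

theorem β_irr : Irrational β := by
  unfold β
  have h := irrational_sqrt_two.div_natCast (m := 2) (by norm_num)
  exact_mod_cast h

theorem β_lo : 0.7 < β := by
  unfold β
  have : (1.4 : ℝ) < √2 := by
    apply Real.lt_sqrt_of_sq_lt
    norm_num
  linarith

theorem β_hi : β < 0.71 := by
  unfold β
  have : √2 < 1.42 := by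
    rw [Real.sqrt_lt' (by norm_num)]
    norm_num
  linarith

/-- The number of ones of `x` before position `j`. -/
noncomputable def Hn (j : ℕ) : ℤ := ⌊((j / 2 : ℕ) : ℝ) * β⌋

/-- The word `0 s_0 0 s_1 0 s_2 …`. -/
noncomputable def xw (j : ℕ) : Bool := decide (Hn (j + 1) ≠ Hn j)

theorem floor_step (a : ℕ) :
    ⌊((a + 1 : ℕ) : ℝ) * β⌋ = ⌊(a : ℝ) * β⌋ ∨ ⌊((a + 1 : ℕ) : ℝ) * β⌋ = ⌊(a : ℝ) * β⌋ + 1 := by
  have h1 := Int.floor_le ((a : ℝ) * β)
  have h2 := Int.lt_floor_add_one ((a : ℝ) * β)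
  have h3 := Int.floor_le (((a + 1 : ℕ) : ℝ) * β)
  have h4 := Int.lt_floor_add_one (((a + 1 : ℕ) : ℝ) * β)
  have hl := β_lo
  have hh := β_hi
  push_cast at h3 h4 ⊢
  have h5 : (⌊(a : ℝ) * β⌋ : ℝ) < ⌊((a : ℝ) + 1) * β⌋ + 1 := by nlinarith
  have h6 : (⌊((a : ℝ) + 1) * β⌋ : ℝ) < ⌊(a : ℝ) * β⌋ + 2 := by nlinarith
  have h7 : ⌊(a : ℝ) * β⌋ < ⌊((a : ℝ) + 1) * β⌋ + 1 := by exact_mod_cast h5
  have h8 : ⌊((a : ℝ) + 1) * β⌋ < ⌊(a : ℝ) * β⌋ + 2 := by exact_mod_cast h6
  omega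

theorem Hn_succ (j : ℕ) : Hn (j + 1) = Hn j + (if xw j = true then 1 else 0) := by
  unfold xw
  simp only [decide_eq_true_eq]
  have key : Hn (j + 1) = Hn j ∨ Hn (j + 1) = Hn j + 1 := by
    unfold Hn
    rcases Nat.even_or_odd' j with ⟨a, rfl | rfl⟩
    · left
      rw [show (2 * a + 1) / 2 = 2 * a / 2 by omega]
    · rw [show (2 * a + 1 + 1) / 2 = a + 1 by omega, show (2 * a + 1) / 2 = a by omega]
      exact floor_step a
  rcases key with h | h
  · rw [if_neg (by simp [h]), h, add_zero]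
  · rw [if_pos (by omega), h]

theorem ones_xw (i n : ℕ) : (ones xw i n : ℤ) = Hn (i + n) - Hn i := by
  induction n with
  | zero => rw [ones_zero]; simp
  | succ n ih =>
    rw [ones_succ, Nat.cast_add, ih, ← add_assoc, Hn_succ]
    split_ifs <;> push_cast <;> ring

/-- The word is uniformly recurrent. -/
theorem xw_ur : UniformlyRecurrent xw := by
  intro i n
  obtain ⟨B, hB⟩ := floor_recurrent β_irr (i / 2) (n + 1)
  refine ⟨2 * B + 3, fun K => ?_⟩
  obtain ⟨a, h1, h2, h3⟩ := hB ((K + 1) / 2)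
  refine ⟨2 * a + i % 2, by omega, by omega, fun j hj => ?_⟩
  have hH : ∀ j ≤ n, Hn (2 * a + i % 2 + j) - ⌊(a : ℝ) * β⌋ =
      Hn (i + j) - ⌊((i / 2 : ℕ) : ℝ) * β⌋ := by
    intro j hj
    have h4 := h3 ((i % 2 + j) / 2) (by omega)
    unfold Hn
    rw [show (2 * a + i % 2 + j) / 2 = a + (i % 2 + j) / 2 by omega,
      show (i + j) / 2 = i / 2 + (i % 2 + j) / 2 by omega]
    exact h4
  have h5 := hH j (by omega)
  have h6 := hH (j + 1) (by omega)
  unfold xw
  rw [← add_assoc, ← add_assoc] at h6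
  congr 1
  apply propext
  constructor
  · intro h h7
    apply h
    omega
  · intro h h7
    apply h
    omega

theorem Hn_bounds (j : ℕ) : (j : ℝ) * β / 2 - 2 < Hn j ∧ (Hn j : ℝ) ≤ j * β / 2 := by
  unfold Hn
  have h1 := Int.floor_le (((j / 2 : ℕ) : ℝ) * β)
  have h2 := Int.lt_floor_add_one (((j / 2 : ℕ) : ℝ) * β)
  have hl := β_lo
  have hh := β_hi
  have h3 : ((j / 2 : ℕ) : ℝ) ≤ j / 2 := by
    have : ((2 * (j / 2) : ℕ) : ℝ) ≤ j := by exact_mod_cast (Nat.mul_div_le j 2)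
    push_cast at this
    linarith
  have h4 : (j : ℝ) / 2 - 1 / 2 ≤ ((j / 2 : ℕ) : ℝ) := by
    have : (j : ℝ) ≤ ((2 * (j / 2) + 1 : ℕ) : ℝ) := by exact_mod_cast (by omega)
    push_cast at this
    linarith
  constructor
  · nlinarith
  · nlinarith

/-- The word is not eventually periodic. -/
theorem xw_aper : Aperiodic xw := by
  rintro ⟨N, p, hp, h⟩
  have h1 : ∀ i, N ≤ i → Hn (i + p) - Hn i = Hn (N + p) - Hn N := by
    intro i hi
    induction i, hi using Nat.le_induction with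
    | base => rfl
    | succ i hi ih =>
      rw [show i + 1 + p = i + p + 1 by ring, Hn_succ, Hn_succ i, h i hi, ← ih]
      ring
  set c := Hn (N + p) - Hn N with hc
  have h2 : ∀ k : ℕ, Hn (N + k * p) = Hn N + k * c := by
    intro k
    induction k with
    | zero => simp
    | succ k ih =>
      have := h1 (N + k * p) (by omega)
      rw [show N + (k + 1) * p = N + k * p + p by ring]
      push_cast
      linarith
  -- compare the slopes
  have h3 : ∀ k : ℕ, |(k : ℝ) * (c - p * β / 2)| ≤ 2 := by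
    intro k
    have e1 := Hn_bounds (N + k * p)
    have e2 := Hn_bounds N
    rw [h2 k] at e1
    push_cast at e1
    rw [abs_le]
    constructor <;> nlinarith
  have h4 : (c : ℝ) - p * β / 2 = 0 := by
    by_contra hne
    obtain ⟨k, hk⟩ := exists_nat_gt (2 / |(c : ℝ) - p * β / 2|)
    have h5 := h3 k
    have h6 : 0 < |(c : ℝ) - p * β / 2| := abs_pos.2 hne
    rw [div_lt_iff₀ h6] at hk
    rw [abs_mul, abs_of_nonneg (Nat.cast_nonneg k)] at h5
    linarith
  have h7 : Irrational ((p : ℝ) * β) := β_irr.natCast_mul (by omega)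
  apply h7
  refine ⟨((2 * c : ℤ) : ℚ), ?_⟩
  push_cast
  linarith

theorem Hn_zero : Hn 0 = 0 := by simp [Hn]

theorem floor_vals : ⌊((1 : ℕ) : ℝ) * β⌋ = 0 ∧ ⌊((2 : ℕ) : ℝ) * β⌋ = 1 ∧
    ⌊((3 : ℕ) : ℝ) * β⌋ = 2 ∧ ⌊((4 : ℕ) : ℝ) * β⌋ = 2 := by
  have hl := β_lo
  have hh := β_hi
  refine ⟨?_, ?_, ?_, ?_⟩ <;> rw [Int.floor_eq_iff] <;> push_cast <;> constructor <;> linarith

theorem xw_vals : xw 0 = false ∧ xw 1 = false ∧ xw 2 = false ∧ xw 3 = true ∧ xw 4 = false ∧
    xw 5 = true ∧ xw 6 = false ∧ xw 7 = false := by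
  obtain ⟨h1, h2, h3, h4⟩ := floor_vals
  have e0 : Hn 0 = 0 := Hn_zero
  have e1 : Hn 1 = 0 := by simp [Hn]
  have e2 : Hn 2 = 0 := h1
  have e3 : Hn 3 = 0 := h1
  have e4 : Hn 4 = 1 := h2
  have e5 : Hn 5 = 1 := h2
  have e6 : Hn 6 = 2 := h3
  have e7 : Hn 7 = 2 := h3
  have e8 : Hn 8 = 2 := h4
  unfold xw
  simp only [Nat.reduceAdd, e0, e1, e2, e3, e4, e5, e6, e7, e8]
  decide

/-- The word is not Sturmian: it has at least five factors of length `3`. -/
theorem xw_not_sturmian : ¬ Sturmian xw := by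
  rintro ⟨_, h⟩
  have h3 := h 3
  obtain ⟨v0, v1, v2, v3, v4, v5, v6, v7⟩ := xw_vals
  set F : Finset (Fin 3 → Bool) := {![false, false, false], ![false, false, true],
    ![false, true, false], ![true, false, true], ![true, false, false]} with hF
  have hcard : F.card = 5 := by rw [hF]; decide
  have hsub : (F : Set (Fin 3 → Bool)) ⊆ Factors xw 3 := by
    intro w hw
    rw [hF] at hw
    simp only [coe_insert, coe_singleton, Set.mem_insert_iff, Set.mem_singleton_iff] at hw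
    rcases hw with rfl | rfl | rfl | rfl | rfl
    · exact ⟨0, fun j => by fin_cases j <;> simp [v0, v1, v2]⟩
    · exact ⟨1, fun j => by fin_cases j <;> simp [v1, v2, v3]⟩
    · exact ⟨2, fun j => by fin_cases j <;> simp [v2, v3, v4]⟩
    · exact ⟨3, fun j => by fin_cases j <;> simp [v3, v4, v5]⟩
    · exact ⟨5, fun j => by fin_cases j <;> simp [v5, v6, v7]⟩
  have := Set.ncard_le_ncard hsub (Set.toFinite _)
  rw [Set.ncard_coe_finset, hcard, h3] at this
  omega

/-- Even windows. -/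
theorem ones_even (i k : ℕ) : ones xw i (2 * k) = ⌊(k : ℝ) * β⌋₊ ∨
    ones xw i (2 * k) = ⌊(k : ℝ) * β⌋₊ + 1 := by
  have h := ones_xw i (2 * k)
  unfold Hn at h
  rw [show (i + 2 * k) / 2 = i / 2 + k by omega] at h
  have hβ : 0 ≤ (k : ℝ) * β := by
    have := β_lo
    positivity
  have hc : ((⌊(k : ℝ) * β⌋₊ : ℕ) : ℤ) = ⌊(k : ℝ) * β⌋ := Int.natCast_floor_eq_floor hβ
  have h1 := Int.le_floor_add ((i / 2 : ℕ) * β) ((k : ℝ) * β)
  have h2 := Int.le_floor_add_floor ((i / 2 : ℕ) * β) ((k : ℝ) * β)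
  rw [← add_mul] at h1 h2
  push_cast at h h1 h2
  omega

theorem ones_upper (i N : ℕ) : (ones xw i N : ℝ) ≤ (N : ℝ) * β / 2 + 2 := by
  have h := ones_xw i N
  have h1 := Hn_bounds (i + N)
  have h2 := Hn_bounds i
  have h3 : (ones xw i N : ℝ) = Hn (i + N) - Hn i := by exact_mod_cast h
  rw [h3]
  push_cast at h1
  linarith

theorem entropy : Tendsto (fun n : ℕ => 1 / (n : ℝ) *
    Real.log ((Blocks (AbClosure xw) n).ncard)) atTop (𝓝 0) := by
  apply entropy_zero
  · exact ⟨xw, fun i n => ⟨i, rfl⟩⟩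
  · intro δ hδ
    obtain ⟨k, hk, hk0, hkδ⟩ := exists_small_fract β_irr hδ
    have hβ : 0 ≤ (k : ℝ) * β := by
      have := β_lo
      positivity
    have hpf : ((⌊(k : ℝ) * β⌋₊ : ℕ) : ℝ) + Int.fract ((k : ℝ) * β) = (k : ℝ) * β := by
      have h1 := Int.floor_add_fract ((k : ℝ) * β)
      have h2 : ((⌊(k : ℝ) * β⌋₊ : ℕ) : ℤ) = ⌊(k : ℝ) * β⌋ := Int.natCast_floor_eq_floor hβ
      have h3 : ((⌊(k : ℝ) * β⌋₊ : ℕ) : ℝ) = (⌊(k : ℝ) * β⌋ : ℝ) := by exact_mod_cast h2
      rw [h3]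
      exact h1
    refine ⟨2 * k, ⌊(k : ℝ) * β⌋₊, Int.fract ((k : ℝ) * β), 4 * k, by omega, hk0.le, hkδ,
      by positivity, ?_, ?_⟩
    · intro y hy i
      obtain ⟨l, hl⟩ := hy i (2 * k)
      rw [hl]
      exact ones_even l k
    · intro y hy i N
      obtain ⟨l, hl⟩ := hy i N
      rw [hl, hpf]
      have h1 := ones_upper l N
      have h2 : (0 : ℝ) ≤ k := Nat.cast_nonneg _
      push_cast
      nlinarith

/-- The letter frequency of `xw` is the irrational number `β/2`. -/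
theorem frequency : Tendsto (fun n : ℕ => (ones xw 0 n : ℝ) / n) atTop (𝓝 (β / 2)) := by
  rw [Metric.tendsto_atTop]
  intro ε hε
  obtain ⟨N, hN⟩ := exists_nat_gt (2 / ε)
  refine ⟨N + 1, fun n hn => ?_⟩
  have hn0 : (0 : ℝ) < n := by
    have : 0 < n := by omega
    exact_mod_cast this
  have hnN : (N : ℝ) ≤ n := by
    have : N ≤ n := by omega
    exact_mod_cast this
  have h := ones_xw 0 n
  rw [zero_add, Hn_zero, sub_zero] at h
  have h3 : (ones xw 0 n : ℝ) = Hn n := by exact_mod_cast h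
  have h1 := Hn_bounds n
  rw [Real.dist_eq, h3, abs_lt]
  rw [div_lt_iff₀ hε] at hN
  constructor
  · rw [lt_sub_iff_add_lt, lt_div_iff₀ hn0]
    nlinarith
  · rw [sub_lt_iff_lt_add, div_lt_iff₀ hn0]
    nlinarith

/-- **MP_1706f7_co, Q1 (negative answer).** There is a uniformly recurrent, aperiodic,
non-Sturmian binary word (with an irrational letter frequency) whose abelian closure has entropy
`0`. -/
theorem result : ∃ x : ℕ → Bool, UniformlyRecurrent x ∧ Aperiodic x ∧ ¬ Sturmian x ∧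
    (∃ α : ℝ, Irrational α ∧ Tendsto (fun n : ℕ => (ones x 0 n : ℝ) / n) atTop (𝓝 α)) ∧
    Tendsto (fun n : ℕ => 1 / (n : ℝ) * Real.log ((Blocks (AbClosure x) n).ncard)) atTop
      (𝓝 0) := by
  refine ⟨xw, xw_ur, xw_aper, xw_not_sturmian, ⟨β / 2, ?_, frequency⟩, entropy⟩
  have h := β_irr.div_natCast (m := 2) (by norm_num)
  exact_mod_cast h

end Pool.Agent.Results.MP_1706f7_co.ZeroEntropy
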